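import Mathlib
import Pool.Agent.L0h79.FR.LM

set_option autoImplicit false
set_option linter.all false

/-!
# FR: two numbers with small Lempel-Ziv complexities at common scales
-/

namespace Pool.Agent.L0h79.TZ

open Filter Topology Pool.Agent.TH932.Abs Pool.Agent.TH932.Germs Pool.Agent.TH932.Chi
open Pool.Agent.TH932.Words Pool.Agent.TH796.AL Pool.Agent.L0h79.FR

/-- common scales -/
theorem lm_dat (hlp : S_LP) (hld : S_LD) (S : Set ℕ) (hS : S.Infinite) (k : ℕ) (b : Fin k → ℕ)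
    (hb : ∀ i, 2 ≤ b i) (m : ℕ) (B : Base m) (e : Fin k → Fin m → ℕ)
    (hbe : ∀ i, b i = ∏ j, B.P j ^ e i j) (y : Fin k → ℝ)
    (hy : ∀ i, y i ∈ Algebra.adjoin ℚ {x | LZNum S (b i) x ∨ UL (b i) x}) :
    ∃ (C A : ℝ) (d : ℕ), 0 ≤ C ∧ 0 ≤ A ∧ ∀ E : ℕ, ∃ (r : ℕ) (N : ℕ → ℕ)
      (hL : Tendsto (fun n => (N n : ℝ)) atTop atTop),
      (r : ℝ) ≤ A * (1 + Real.log (E + 1)) ^ d ∧
      ∀ i, Dat B hL (Submodule.span ℝ {fun j => (e i j : ℝ)}) C r E (y i) := by
  classical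
  choose σ fσ x f hx hyf using fun i => adjoin_poly (hy i)
  choose D hD using fun i => dat_poly (f i)
  -- the words
  set T1 : Type := {t : Σ i, σ i // LZNum S (b t.1) (x t.1 t.2)} with hT1
  choose al fal τ w K hsum1 hK using fun t : T1 => t.2
  set k' : ℕ := Fintype.card T1 with hk'
  set en : T1 ≃ Fin k' := Fintype.equivFin T1 with hen
  obtain ⟨A1, hA1, hLP⟩ := hlp k' (fun l => al (en.symm l)) (fun l => w (en.symm l))
    (2 * ∑ t, |K t|) (by
      rw [Filter.frequently_atTop]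
      intro M0
      obtain ⟨M, hMS, hM⟩ := hS.exists_gt (max M0 3)
      refine ⟨M, ((le_max_left _ _).trans hM.le), fun l => ?_⟩
      have h1 := hK (en.symm l) M hMS
      have h2 : 1 ≤ Real.log M := by
        have h3 : (3 : ℝ) ≤ M := by exact_mod_cast (le_max_right M0 3).trans hM.le
        rw [Real.le_log_iff_exp_le (by linarith)]
        have := Real.exp_one_lt_d9
        linarith
      have h4 : |K (en.symm l)| ≤ ∑ t, |K t| :=
        Finset.single_le_sum (f := fun t => |K t|) (fun _ _ => abs_nonneg _) (Finset.mem_univ _)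
      calc (LZ (w (en.symm l)) M : ℝ) ≤ K (en.symm l) * (1 + Real.log M) := h1
        _ ≤ |K (en.symm l)| * (1 + Real.log M) := by gcongr; exact le_abs_self _
        _ ≤ (∑ t, |K t|) * (2 * Real.log M) := by gcongr; linarith
        _ = _ := by ring)
  -- constants for the other numbers
  set T : Type := Σ i, σ i with hT
  have hUL : ∀ t : T, ∃ (C A : ℝ) (d : ℕ), 0 ≤ C ∧ 0 ≤ A ∧ (¬ LZNum S (b t.1) (x t.1 t.2) →
      ∀ E : ℕ, ∃ r : ℕ, (r : ℝ) ≤ A * (1 + Real.log (E + 1)) ^ d ∧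
      ∀ (N : ℕ → ℕ) (_ : ∀ n, 2 ≤ N n) (hL : Tendsto (fun n => (N n : ℝ)) atTop atTop),
        Dat B hL (Submodule.span ℝ {fun i => (e t.1 i : ℝ)}) C r E (x t.1 t.2)) := by
    intro t
    by_cases ht : LZNum S (b t.1) (x t.1 t.2)
    · exact ⟨0, 0, 0, le_rfl, le_rfl, fun h => absurd ht h⟩
    · rcases hx t.1 t.2 with h | h
      · exact absurd h ht
      · obtain ⟨C, A, d, hC, hA, h1⟩ := h m B (e t.1) (hbe t.1)
        exact ⟨C, A, d, hC, hA, fun _ => h1⟩
  choose C A d hC0 hA0 hULd using hUL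
  set CC : ℝ := ∑ t, C t + ∑ i, Real.log (b i) with hCC
  have hlogb : ∀ i, 0 ≤ Real.log (b i) := fun i =>
    Real.log_nonneg (by have := hb i; exact_mod_cast (by omega : 1 ≤ b i))
  have hCt : ∀ t, C t ≤ CC := fun t => by
    have h1 := Finset.single_le_sum (f := C) (fun j _ => hC0 j) (Finset.mem_univ t)
    have h2 : 0 ≤ ∑ i, Real.log (b i) := Finset.sum_nonneg fun i _ => hlogb i
    linarith
  have hCb : ∀ i, Real.log (b i) ≤ CC := fun i => by
    have h1 := Finset.single_le_sum (f := fun i => Real.log (b i)) (fun j _ => hlogb j)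
      (Finset.mem_univ i)
    have h2 : 0 ≤ ∑ t, C t := Finset.sum_nonneg fun i _ => hC0 i
    linarith
  have hCC0 : 0 ≤ CC := add_nonneg (Finset.sum_nonneg fun i _ => hC0 i)
    (Finset.sum_nonneg fun i _ => hlogb i)
  set AA : ℝ := ∑ t : T, (A t + (4 * A1 + 2)) with hAA
  have hAA0 : 0 ≤ AA := Finset.sum_nonneg fun t _ => by
    have := hA0 t
    linarith
  set dd : ℕ := ∑ t, d t + 1 with hdd
  have hdt : ∀ t, d t ≤ dd := fun t =>
    (Finset.single_le_sum (f := d) (fun j _ => Nat.zero_le _) (Finset.mem_univ t)).trans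
      (Nat.le_succ _)
  set DD : ℕ := ∑ i, D i with hDD
  have hDi : ∀ i, D i ≤ DD := fun i =>
    Finset.single_le_sum (f := D) (fun j _ => Nat.zero_le _) (Finset.mem_univ i)
  have hlogD : 0 ≤ Real.log ((DD : ℝ) + 1) := Real.log_nonneg (by
    have : (0 : ℝ) ≤ DD := Nat.cast_nonneg _
    linarith)
  refine ⟨DD * CC, (AA + 2) ^ DD * (1 + Real.log ((DD : ℝ) + 1)) ^ (dd * DD), dd * DD,
    by positivity, by positivity, fun E => ?_⟩
  have hX := one_le_log (DD + E)
  set X := 1 + Real.log (((DD + E : ℕ) : ℝ) + 1) with hXdef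
  have hXle : X ≤ (1 + Real.log ((DD : ℝ) + 1)) * (1 + Real.log ((E : ℝ) + 1)) := by
    have h1 : (0 : ℝ) < (DD : ℝ) + 1 := by positivity
    have h2 : (0 : ℝ) < (E : ℝ) + 1 := by positivity
    have h3 : Real.log (((DD + E : ℕ) : ℝ) + 1) ≤ Real.log ((DD : ℝ) + 1) + Real.log ((E : ℝ) + 1) := by
      rw [← Real.log_mul h1.ne' h2.ne']
      refine Real.log_le_log (by positivity) ?_
      push_cast
      have : (0 : ℝ) ≤ (DD : ℝ) * E := by positivity
      nlinarith
    have h4 : 0 ≤ Real.log ((E : ℝ) + 1) := Real.log_nonneg (by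
      have : (0 : ℝ) ≤ E := Nat.cast_nonneg _
      linarith)
    rw [hXdef]
    nlinarith [mul_nonneg hlogD h4]
  -- scales
  set E' : ℕ := 2 * (DD + E + 1) with hE'
  obtain ⟨N, r1, tt, hr1, hN2, hNT, hph⟩ := hLP E' (by omega)
  have hL : Tendsto (fun n => (N n : ℝ)) atTop atTop := tendsto_natCast_atTop_atTop.comp hNT
  have hr1' : (r1 : ℝ) ≤ A1 * (2 * X) := by
    refine hr1.trans ?_
    gcongr
    have h1 : (0 : ℝ) < ((DD + E : ℕ) : ℝ) + 1 := by positivity
    have h2 : ((E' : ℕ) : ℝ) = 2 * (((DD + E : ℕ) : ℝ) + 1) := by rw [hE']; push_cast; ring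
    rw [h2, Real.log_mul (by norm_num) h1.ne']
    have h3 : Real.log 2 ≤ 1 := by
      have := Real.log_two_lt_d9
      linarith
    rw [hXdef] at hX ⊢
    linarith
  have hdat : ∀ t : T, ∃ r : ℕ, (r : ℝ) ≤ (A t + (4 * A1 + 2)) * X ^ dd ∧
      Dat B hL (Submodule.span ℝ {fun i => (e t.1 i : ℝ)}) CC r ((DD + E : ℕ) : ℝ)
        (x t.1 t.2) := by
    intro t
    have hXd : 1 ≤ X ^ dd := one_le_pow₀ hX
    by_cases ht : LZNum S (b t.1) (x t.1 t.2)
    · set t1 : T1 := ⟨t, ht⟩ with ht1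
      have h1 := hld (b t.1) (hb t.1) (al t1) (fal t1) (τ t1) (w t1) (x t.1 t.2) (hsum1 t1) m B
        (e t.1) (hbe t.1) N hL r1 E' (tt (en t1)) (fun n => by
          have := hph (en t1) n
          rwa [Equiv.symm_apply_apply] at this) ((DD + E : ℕ) : ℝ) (by
          have h2 : Real.log 2 ≤ Real.log (b t.1) :=
            Real.log_le_log (by norm_num) (by exact_mod_cast hb t.1)
          have h3 := Real.log_two_gt_d9
          have h4 : ((E' : ℕ) : ℝ) = 2 * (((DD + E : ℕ) : ℝ) + 1) := by rw [hE']; push_cast; ring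
          rw [h4]
          have h5 : (0 : ℝ) ≤ ((DD + E : ℕ) : ℝ) := Nat.cast_nonneg _
          nlinarith)
      refine ⟨2 * r1 + 2, ?_, dat_mono hL (hCb t.1) le_rfl h1⟩
      push_cast
      have h6 : X ≤ X ^ dd := by
        calc X = X ^ 1 := (pow_one X).symm
          _ ≤ X ^ dd := by
            gcongr
            omega
      have h7 := hA0 t
      calc (2 : ℝ) * r1 + 2 ≤ 2 * (A1 * (2 * X)) + 2 * X := by linarith
        _ = (4 * A1 + 2) * X := by ring
        _ ≤ (A t + (4 * A1 + 2)) * X ^ dd := by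
          refine mul_le_mul (by linarith) h6 (by linarith) (by linarith)
    · obtain ⟨r, hr, h1⟩ := hULd t ht (DD + E)
      refine ⟨r, hr.trans ?_, dat_mono hL (hCt t) le_rfl (h1 N hN2 hL)⟩
      have h7 := hA0 t
      gcongr
      · linarith
      · exact hdt t
  choose r hr hdat using hdat
  set rr : ℕ := ∑ t, r t with hrr
  have hrt : ∀ t, r t ≤ rr := fun t =>
    Finset.single_le_sum (f := r) (fun j _ => Nat.zero_le _) (Finset.mem_univ t)
  have hXdd : 1 ≤ X ^ dd := one_le_pow₀ hX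
  have hrr2 : (rr : ℝ) ≤ AA * X ^ dd := by
    rw [hrr]
    push_cast
    rw [hAA, Finset.sum_mul]
    exact Finset.sum_le_sum fun t _ => hr t
  refine ⟨(rr + 2) ^ DD, N, hL, ?_, fun i => ?_⟩
  · have h2 : ((rr : ℝ) + 2) ≤ (AA + 2) * X ^ dd := by nlinarith
    push_cast
    calc ((rr : ℝ) + 2) ^ DD ≤ ((AA + 2) * X ^ dd) ^ DD := by gcongr
      _ = (AA + 2) ^ DD * X ^ (dd * DD) := by rw [mul_pow, ← pow_mul]
      _ ≤ (AA + 2) ^ DD * ((1 + Real.log ((DD : ℝ) + 1)) * (1 + Real.log ((E : ℝ) + 1))) ^ (dd * DD) := by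
        gcongr
      _ = _ := by rw [mul_pow]; ring
  · have h1 := hD i m B (fun n => (N n : ℝ)) hL (Submodule.span ℝ {fun j => (e i j : ℝ)}) (x i) CC
      hCC0 rr E (Nat.cast_nonneg E) (fun j => by
        refine dat_monoE hL ?_ (dat_mono hL le_rfl (hrt ⟨i, j⟩) (hdat ⟨i, j⟩))
        push_cast
        have : (D i : ℝ) ≤ DD := by exact_mod_cast hDi i
        linarith)
    rw [← hyf i] at h1
    refine dat_mono hL ?_ ?_ h1
    · have : (D i : ℝ) ≤ DD := by exact_mod_cast hDi i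
      gcongr
    · exact Nat.pow_le_pow_right (by omega) (hDi i)

/-- two numbers with a measure for common denominators are not both in the intersections of two
algebras -/
theorem joint (hdir : S_DIR) (hlp : S_LP) (hld : S_LD) {u v c : ℝ} (hc : 0 < c) (M : ℕ)
    (hm : ∀ (p q : ℤ) (n : ℕ), 0 < n → c / (n : ℝ) ^ M ≤ max |u - p / n| |v - q / n|)
    (S : Set ℕ) (hS : S.Infinite) (b : Fin 4 → ℕ) (hb : ∀ i, 2 ≤ b i)
    (h01 : TwoB.Indep (b 0) (b 1)) (h23 : TwoB.Indep (b 2) (b 3))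
    (hu0 : u ∈ Algebra.adjoin ℚ {x | LZNum S (b 0) x ∨ UL (b 0) x})
    (hu1 : u ∈ Algebra.adjoin ℚ {x | LZNum S (b 1) x ∨ UL (b 1) x})
    (hv2 : v ∈ Algebra.adjoin ℚ {x | LZNum S (b 2) x ∨ UL (b 2) x})
    (hv3 : v ∈ Algebra.adjoin ℚ {x | LZNum S (b 3) x ∨ UL (b 3) x}) : False := by
  classical
  obtain ⟨m, B, e, hbe⟩ := base 4 b hb
  obtain ⟨C, A, d, hC, hA, hdat⟩ := lm_dat hlp hld S hS 4 b hb m B e hbe ![u, u, v, v] (by
    intro i
    fin_cases i
    · exact hu0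
    · exact hu1
    · exact hv2
    · exact hv3)
  have hdis : ∀ i j : Fin 4, TwoB.Indep (b i) (b j) → Disjoint
      (Submodule.span ℝ {fun l => (e i l : ℝ)}) (Submodule.span ℝ {fun l => (e j l : ℝ)}) :=
    fun i j h => TwoB.disjoint_of_indep B h (e i) (e j) (hbe i) (hbe j)
  have key : ∀ i j : Fin 4, TwoB.Indep (b i) (b j) → ∃ κ : ℝ, 0 ≤ κ ∧
      ∀ (r : ℕ) (L : ℕ → ℝ) (hL : Tendsto L atTop atTop) (z E : ℝ),
        Dat B hL (Submodule.span ℝ {fun l => (e i l : ℝ)}) C r E z →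
        Dat B hL (Submodule.span ℝ {fun l => (e j l : ℝ)}) C r E z → ∃ g : ℕ → ℚ,
      (∀ᶠ n in (UU : Filter ℕ), ((g n).den : ℝ) ≤
        Real.exp (κ * (C + 1) * ((r : ℝ) + 1) ^ 2 * L n)) ∧
      ∀ᶠ n in (UU : Filter ℕ), |z - g n| ≤
        Real.exp (-((E - κ * (C + 1) * ((r : ℝ) + 1) ^ 2) * L n)) := by
    intro i j hij
    obtain ⟨κ, hκ, h⟩ := hdir m B 2 ![Submodule.span ℝ {fun l => (e i l : ℝ)},
      Submodule.span ℝ {fun l => (e j l : ℝ)}] (by
        intro p q hpq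
        fin_cases p <;> fin_cases q
        · exact absurd rfl hpq
        · exact hdis i j hij
        · exact (hdis i j hij).symm
        · exact absurd rfl hpq)
    refine ⟨κ, hκ, fun r L hL z E h1 h2 => ?_⟩
    exact h C hC r L hL ![z, z] ![1, -1] (by
        intro l
        fin_cases l
        · exact ⟨isAlgebraic_one, one_ne_zero⟩
        · exact ⟨isAlgebraic_one.neg, neg_ne_zero.2 one_ne_zero⟩) E (by
        intro l
        fin_cases l
        · exact h1
        · exact h2) (by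
        simp only [Fin.sum_univ_two, Matrix.cons_val_zero, Matrix.cons_val_one]
        ring) 0
  obtain ⟨κ1, hκ1, hk1⟩ := key 0 1 h01
  obtain ⟨κ2, hκ2, hk2⟩ := key 2 3 h23
  set κ : ℝ := κ1 + κ2 with hκ
  have hκ0 : 0 ≤ κ := by positivity
  -- the precision
  obtain ⟨E, hE⟩ := polylog ((2 * M + 2) * (κ * (C + 1) * (A + 1) ^ 2)) (d * 2) (2 * M + 2)
  have hE := hE E le_rfl
  obtain ⟨r, N, hL, hr, hD⟩ := hdat E
  set X := 1 + Real.log ((E : ℝ) + 1) with hXdef
  have hX : 1 ≤ X := one_le_log E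
  set H : ℝ := κ * (C + 1) * ((r : ℝ) + 1) ^ 2 with hH
  have hH0 : 0 ≤ H := by positivity
  have hEH : (2 * M + 2) * H + (2 * M + 2) ≤ E := by
    refine le_trans ?_ hE
    have h1 : (r : ℝ) + 1 ≤ (A + 1) * X ^ d := by
      have : 1 ≤ X ^ d := one_le_pow₀ hX
      nlinarith
    have h2 : ((r : ℝ) + 1) ^ 2 ≤ (A + 1) ^ 2 * X ^ (d * 2) := by
      rw [pow_mul, ← mul_pow]
      gcongr
    rw [hH]
    calc (2 * M + 2) * (κ * (C + 1) * ((r : ℝ) + 1) ^ 2) + (2 * M + 2)
        ≤ (2 * M + 2) * (κ * (C + 1) * ((A + 1) ^ 2 * X ^ (d * 2))) + (2 * M + 2) := by gcongr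
      _ = _ := by ring
  obtain ⟨g, hg1, hg2⟩ := hk1 r _ hL u E (hD 0) (hD 1)
  obtain ⟨h, hh1, hh2⟩ := hk2 r _ hL v E (hD 2) (hD 3)
  have hle1 : κ1 * (C + 1) * ((r : ℝ) + 1) ^ 2 ≤ H := by
    rw [hH]
    gcongr
    linarith
  have hle2 : κ2 * (C + 1) * ((r : ℝ) + 1) ^ 2 ≤ H := by
    rw [hH]
    gcongr
    linarith
  obtain ⟨n, g1, g2, g3, g4, g5⟩ := (hg1.and (hg2.and (hh1.and (hh2.and (ev_of_atTop
    (hL.eventually_ge_atTop (max 1 (Real.log (2 / c))))))))).exists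
  have hN1 : (1 : ℝ) ≤ N n := (le_max_left _ _).trans g5
  have hN0 : (0 : ℝ) ≤ N n := by linarith
  have hcN : Real.exp (-(N n : ℝ)) < c := by
    have h1 : Real.log (2 / c) ≤ N n := (le_max_right _ _).trans g5
    have h2 : 2 / c ≤ Real.exp (N n) := by
      calc 2 / c = Real.exp (Real.log (2 / c)) := (Real.exp_log (by positivity)).symm
        _ ≤ _ := Real.exp_le_exp.2 h1
    rw [Real.exp_neg, inv_lt_comm₀ (Real.exp_pos _) hc]
    have h3 : c⁻¹ < 2 / c := by
      rw [div_eq_mul_inv]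
      have : 0 < c⁻¹ := inv_pos.2 hc
      linarith
    linarith
  have f1 : ((g n).den : ℝ) ≤ Real.exp (H * N n) :=
    g1.trans (Real.exp_le_exp.2 (mul_le_mul_of_nonneg_right hle1 hN0))
  have f3 : ((h n).den : ℝ) ≤ Real.exp (H * N n) :=
    g3.trans (Real.exp_le_exp.2 (mul_le_mul_of_nonneg_right hle2 hN0))
  have f2 : |u - g n| ≤ Real.exp (-((E - H) * N n)) := by
    refine g2.trans (Real.exp_le_exp.2 ?_)
    have := mul_le_mul_of_nonneg_right hle1 hN0
    nlinarith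
  have f4 : |v - h n| ≤ Real.exp (-((E - H) * N n)) := by
    refine g4.trans (Real.exp_le_exp.2 ?_)
    have := mul_le_mul_of_nonneg_right hle2 hN0
    nlinarith
  have hgd := (g n).den_pos
  have hhd := (h n).den_pos
  have hgd' : (0 : ℝ) < (g n).den := by exact_mod_cast hgd
  have hhd' : (0 : ℝ) < (h n).den := by exact_mod_cast hhd
  have k1 := hm ((g n).num * (h n).den) ((h n).num * (g n).den) ((g n).den * (h n).den)
    (Nat.mul_pos hgd hhd)
  have e1 : (((g n).num * (h n).den : ℤ) : ℝ) / (((g n).den * (h n).den : ℕ) : ℝ) = (g n : ℝ) := by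
    have h4 : (g n : ℝ) = ((g n).num : ℝ) / (g n).den := by
      exact_mod_cast (Rat.num_div_den (g n)).symm
    rw [h4]
    push_cast
    field_simp
  have e2 : (((h n).num * (g n).den : ℤ) : ℝ) / (((g n).den * (h n).den : ℕ) : ℝ) = (h n : ℝ) := by
    have h4 : (h n : ℝ) = ((h n).num : ℝ) / (h n).den := by
      exact_mod_cast (Rat.num_div_den (h n)).symm
    rw [h4]
    push_cast
    field_simp
  rw [e1, e2] at k1
  have k2 := k1.trans (max_le f2 f4)
  have k3 : (((g n).den * (h n).den : ℕ) : ℝ) ^ M ≤ Real.exp (2 * M * H * N n) := by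
    have h5 : (((g n).den * (h n).den : ℕ) : ℝ) ≤ Real.exp (2 * (H * N n)) := by
      push_cast
      calc ((g n).den : ℝ) * (h n).den ≤ Real.exp (H * N n) * Real.exp (H * N n) := by gcongr
        _ = _ := by rw [← Real.exp_add]; ring_nf
    calc (((g n).den * (h n).den : ℕ) : ℝ) ^ M ≤ (Real.exp (2 * (H * N n))) ^ M := by gcongr
      _ = _ := by rw [← Real.exp_nat_mul]; ring_nf
  have k4 : Real.exp (-(N n : ℝ)) * Real.exp (-(2 * M * H * N n)) < Real.exp (-((E - H) * N n)) := by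
    have hpos : (0 : ℝ) < (((g n).den * (h n).den : ℕ) : ℝ) ^ M := by positivity
    have h6 : c * Real.exp (-(2 * M * H * N n)) ≤ c / (((g n).den * (h n).den : ℕ) : ℝ) ^ M := by
      rw [Real.exp_neg, div_eq_mul_inv]
      exact mul_le_mul_of_nonneg_left (inv_anti₀ hpos k3) hc.le
    have h7 := mul_lt_mul_of_pos_right hcN (Real.exp_pos (-(2 * M * H * N n)))
    linarith
  rw [← Real.exp_add, Real.exp_lt_exp] at k4
  have k5 : (E - H) * (N n : ℝ) < (1 + 2 * M * H) * N n := by linarith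
  have k6 := lt_of_mul_lt_mul_right k5 hN0
  have hMH : 0 ≤ (M : ℝ) * H := by positivity
  have hM0 : (0 : ℝ) ≤ M := Nat.cast_nonneg _
  nlinarith

end Pool.Agent.L0h79.TZ
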