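import Mathlib
import Pool.Agent.L0h79.TZ.Joint
import Pool.Agent.L0h79.FR.All2

set_option autoImplicit false
set_option linter.all false

/-!
# Two numbers with a joint measure: Lempel-Ziv complexities in multiplicatively independent bases
-/

namespace Pool.Agent.L0h79.TZ

open Pool.Agent.L0h79.FR Pool.Agent.TH796.AL Pool.Agent.TH796.AL.Final

/-- a measure for common denominators -/
def Meas (u v : ℝ) : Prop := ∃ (c : ℝ) (M : ℕ), 0 < c ∧
  ∀ (p q : ℤ) (n : ℕ), 0 < n → c / (n : ℝ) ^ M ≤ max |u - p / n| |v - q / n|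

/-- membership in two algebras -/
theorem both {u v : ℝ} (h : Meas u v) {S : Set ℕ} (hS : S.Infinite) {a b a' b' : ℕ} (ha : 2 ≤ a)
    (hb : 2 ≤ b) (ha' : 2 ≤ a') (hb' : 2 ≤ b') (hab : TwoB.Indep a b) (hab' : TwoB.Indep a' b')
    (h1 : u ∈ Algebra.adjoin ℚ {x | LZNum S a x ∨ UL a x})
    (h2 : u ∈ Algebra.adjoin ℚ {x | LZNum S b x ∨ UL b x})
    (h3 : v ∈ Algebra.adjoin ℚ {x | LZNum S a' x ∨ UL a' x})
    (h4 : v ∈ Algebra.adjoin ℚ {x | LZNum S b' x ∨ UL b' x}) : False := by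
  obtain ⟨c, M, hc, hm⟩ := h
  exact joint dir_thm Pool.Agent.L0h48.FR.t_LP ld_thm hc M hm S hS ![a, b, a', b'] (by
    intro i
    fin_cases i
    · exact ha
    · exact hb
    · exact ha'
    · exact hb') hab hab' h1 h2 h3 h4

/-- small complexities on a set -/
theorem lz_mem {b : ℕ} (hb : 2 ≤ b) {S : Set ℕ} {x K : ℝ} (hS : ∀ N ∈ S, 1 ≤ N)
    (h : ∀ N ∈ S, (LZ (digit b x) N : ℝ) ≤ K * Real.log N) :
    x ∈ Algebra.adjoin ℚ {x | LZNum S b x ∨ UL b x} := by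
  refine lz_digits hb (K := |K|) (fun N hN => ?_) _ fun x hx => Or.inl hx
  have h3 : 0 ≤ Real.log N := Real.log_nonneg (by exact_mod_cast hS N hN)
  have h5 := mul_le_mul_of_nonneg_right (le_abs_self K) h3
  have := abs_nonneg K
  have := h N hN
  linarith

theorem two_le {b b' : ℕ} {x : ℝ} {K : ℝ} {N : ℕ}
    (h : (LZ (digit b x) N : ℝ) + LZ (digit b' x) N ≤ K * Real.log N) :
    (LZ (digit b x) N : ℝ) ≤ K * Real.log N ∧ (LZ (digit b' x) N : ℝ) ≤ K * Real.log N := by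
  have h5 : (0 : ℝ) ≤ LZ (digit b x) N := Nat.cast_nonneg _
  have h6 : (0 : ℝ) ≤ LZ (digit b' x) N := Nat.cast_nonneg _
  constructor <;> linarith

/-- at each large scale one of the two numbers is complex -/
theorem lz_pair {u v : ℝ} (h : Meas u v) {a b a' b' : ℕ} (ha : 2 ≤ a) (hb : 2 ≤ b) (ha' : 2 ≤ a')
    (hb' : 2 ≤ b') (hab : TwoB.Indep a b) (hab' : TwoB.Indep a' b') (K : ℝ) :
    ∃ N₀ : ℕ, ∀ N ≥ N₀, K * Real.log N < (LZ (digit a u) N : ℝ) + LZ (digit b u) N ∨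
      K * Real.log N < (LZ (digit a' v) N : ℝ) + LZ (digit b' v) N := by
  by_contra hcon
  push Not at hcon
  set S : Set ℕ := {N | 1 ≤ N ∧ (LZ (digit a u) N : ℝ) + LZ (digit b u) N ≤ K * Real.log N ∧
    (LZ (digit a' v) N : ℝ) + LZ (digit b' v) N ≤ K * Real.log N} with hS
  have hinf : S.Infinite := by
    rw [Set.infinite_iff_exists_gt]
    intro n₀
    obtain ⟨n, h1, h2⟩ := hcon (n₀ + 1)
    exact ⟨n, ⟨by omega, h2⟩, by omega⟩
  have h1 : ∀ N ∈ S, 1 ≤ N := fun N hN => hN.1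
  exact both h hinf ha hb ha' hb' hab hab'
    (lz_mem ha h1 fun N hN => (two_le hN.2.1).1) (lz_mem hb h1 fun N hN => (two_le hN.2.1).2)
    (lz_mem ha' h1 fun N hN => (two_le hN.2.2).1) (lz_mem hb' h1 fun N hN => (two_le hN.2.2).2)

/-- if one of them is rational -/
theorem lz_rat {u v : ℝ} (h : Meas u v) (hu : ¬ Irrational u) {a b : ℕ} (ha : 2 ≤ a) (hb : 2 ≤ b)
    (hab : TwoB.Indep a b) (K : ℝ) :
    ∃ N₀ : ℕ, ∀ N ≥ N₀, K * Real.log N < (LZ (digit a v) N : ℝ) + LZ (digit b v) N := by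
  by_contra hcon
  push Not at hcon
  set S : Set ℕ := {N | 1 ≤ N ∧ (LZ (digit a v) N : ℝ) + LZ (digit b v) N ≤ K * Real.log N} with hS
  have hinf : S.Infinite := by
    rw [Set.infinite_iff_exists_gt]
    intro n₀
    obtain ⟨n, h1, h2⟩ := hcon (n₀ + 1)
    exact ⟨n, ⟨by omega, h2⟩, by omega⟩
  have h1 : ∀ N ∈ S, 1 ≤ N := fun N hN => hN.1
  have hq : ∀ b, u ∈ Algebra.adjoin ℚ {x | LZNum S b x ∨ UL b x} := by
    intro b
    unfold Irrational at hu
    rw [not_not] at hu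
    obtain ⟨q, rfl⟩ := hu
    exact Subalgebra.algebraMap_mem _ q
  exact both h hinf ha hb ha hb hab hab (hq a) (hq b)
    (lz_mem ha h1 fun N hN => (two_le hN.2).1) (lz_mem hb h1 fun N hN => (two_le hN.2).2)

/-- if one of them is rational and the other one has a simple expansion -/
theorem lz_rat_simple {u v : ℝ} (h : Meas u v) (hu : ¬ Irrational u) {a b : ℕ} (ha : 2 ≤ a)
    (hb : 2 ≤ b) (hab : TwoB.Indep a b) (hv : v ∈ Algebra.adjoin ℚ (Cls a)) (K : ℝ) :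
    ∃ N₀ : ℕ, ∀ N ≥ N₀, K * Real.log N < (LZ (digit b v) N : ℝ) := by
  by_contra hcon
  push Not at hcon
  set S : Set ℕ := {N | 1 ≤ N ∧ (LZ (digit b v) N : ℝ) ≤ K * Real.log N} with hS
  have hinf : S.Infinite := by
    rw [Set.infinite_iff_exists_gt]
    intro n₀
    obtain ⟨n, h1, h2⟩ := hcon (n₀ + 1)
    exact ⟨n, ⟨by omega, h2⟩, by omega⟩
  have h1 : ∀ N ∈ S, 1 ≤ N := fun N hN => hN.1
  have hq : ∀ b, u ∈ Algebra.adjoin ℚ {x | LZNum S b x ∨ UL b x} := by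
    intro b
    unfold Irrational at hu
    rw [not_not] at hu
    obtain ⟨q, rfl⟩ := hu
    exact Subalgebra.algebraMap_mem _ q
  exact both h hinf ha hb ha hb hab hab (hq a) (hq b)
    (Algebra.subset_adjoin (Or.inr (ul_adjoin (fun x hx => cls_ul frd_thm lu_thm ha hx) hv)))
    (lz_mem hb h1 fun N hN => hN.2)

end Pool.Agent.L0h79.TZ
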